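import Mathlib

set_option autoImplicit false

namespace Pool.Agent.H.MP_871f9b_an

open Complex Filter Topology
open scoped ContDiff RealInnerProductSpace

abbrev E := EuclideanSpace ℝ (Fin 3)

noncomputable def g (t : ℝ) : ℂ := exp (I * t) / t
noncomputable def ps (t : ℝ) : ℂ := (I * t - 1) * exp (I * t) / t ^ 3
noncomputable def G (y x : E) : ℂ := g ‖x - y‖

lemma hexp (t : ℝ) : HasDerivAt (fun s : ℝ => exp (I * s)) (I * exp (I * t)) t := by
  have h1 : HasDerivAt (fun s : ℝ => I * (s : ℂ)) (I * 1) t :=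
    (Complex.ofRealCLM.hasDerivAt (x := t)).const_mul I
  refine HasDerivAt.congr_deriv h1.cexp ?_
  ring

lemma hof (t : ℝ) : HasDerivAt (fun s : ℝ => (s : ℂ)) 1 t :=
  Complex.ofRealCLM.hasDerivAt (x := t)

lemma hg {t : ℝ} (ht : t ≠ 0) : HasDerivAt g (ps t * t) t := by
  have h0 : (t : ℂ) ≠ 0 := by exact_mod_cast ht
  refine HasDerivAt.congr_deriv ((hexp t).div (hof t) h0) ?_
  unfold ps
  field_simp

lemma hps {t : ℝ} (ht : t ≠ 0) : HasDerivAt ps ((-g t - 3 * ps t) / t) t := by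
  have h0 : (t : ℂ) ≠ 0 := by exact_mod_cast ht
  have h1 := ((((hof t).const_mul I).sub_const 1).mul (hexp t)).div ((hof t).pow 3) (pow_ne_zero 3 h0)
  refine HasDerivAt.congr_deriv h1 ?_
  unfold ps g
  simp only [Pi.mul_apply, Pi.pow_apply]
  field_simp
  simp only [Nat.cast_ofNat, Nat.add_one_sub_one]
  linear_combination ((t : ℂ) ^ 4) * I_sq

lemma hr {y x : E} (h : x ≠ y) :
    HasFDerivAt (fun z : E => ‖z - y‖) (‖x - y‖⁻¹ • innerSL ℝ (x - y)) x := by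
  have h0 : ‖x - y‖ ≠ 0 := norm_ne_zero_iff.2 (sub_ne_zero.2 h)
  have h1 : HasFDerivAt (fun z : E => ‖z - y‖ ^ 2) (2 • (innerSL ℝ (x - y)).comp (ContinuousLinearMap.id ℝ E)) x :=
    ((hasFDerivAt_id x).sub_const y).norm_sq
  have h2 := h1.sqrt (pow_ne_zero 2 h0)
  have h3 : (fun z : E => √(‖z - y‖ ^ 2)) = fun z => ‖z - y‖ := by
    funext z; exact Real.sqrt_sq (norm_nonneg _)
  rw [h3] at h2
  refine h2.congr_fderiv ?_
  ext v
  simp only [Real.sqrt_sq (norm_nonneg _), smul_apply, ContinuousLinearMap.comp_apply,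
    ContinuousLinearMap.id_apply, smul_eq_mul, nsmul_eq_mul]
  field_simp
  norm_num

lemma hrad {y x : E} (h : x ≠ y) {k : ℝ → ℂ} {k' : ℂ} (hk : HasDerivAt k k' ‖x - y‖) :
    ∃ L : E →L[ℝ] ℂ, HasFDerivAt (fun z : E => k ‖z - y‖) L x ∧
      ∀ v, L v = k' / ‖x - y‖ * (⟪x - y, v⟫ : ℝ) := by
  refine ⟨_, hk.hasFDerivAt.comp x (hr h), fun v => ?_⟩
  simp only [ContinuousLinearMap.comp_apply, smul_apply, innerSL_apply_apply,
    ContinuousLinearMap.toSpanSingleton_apply, smul_eq_mul, Complex.real_smul]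
  push_cast
  ring

lemma fdG {y x : E} (h : x ≠ y) (v : E) :
    fderiv ℝ (G y) x v = ps ‖x - y‖ * (⟪x - y, v⟫ : ℝ) := by
  have h0 : ‖x - y‖ ≠ 0 := norm_ne_zero_iff.2 (sub_ne_zero.2 h)
  have h0' : ((‖x - y‖ : ℝ) : ℂ) ≠ 0 := by exact_mod_cast h0
  obtain ⟨L, hL, hv⟩ := hrad h (hg h0)
  have : fderiv ℝ (G y) x = L := hL.fderiv
  rw [this, hv]
  field_simp

lemma cdG {y x : E} (h : x ≠ y) : ContDiffAt ℝ ∞ (G y) x := by
  have h0 : x - y ≠ 0 := sub_ne_zero.2 h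
  have h1 : ContDiffAt ℝ ∞ (fun z : E => ‖z - y‖) x :=
    (contDiffAt_id.sub contDiffAt_const).norm ℝ h0
  have h2 : ContDiffAt ℝ ∞ (fun z : E => ((‖z - y‖ : ℝ) : ℂ)) x :=
    Complex.ofRealCLM.contDiff.contDiffAt.comp x h1
  have h3 : ((‖x - y‖ : ℝ) : ℂ) ≠ 0 := by exact_mod_cast norm_ne_zero_iff.2 h0
  have h4 := (contDiffAt_const (c := I).mul h2).cexp
  have h5 := h4.mul (h2.inv h3)
  refine h5.congr_of_eventuallyEq (Eventually.of_forall fun z => ?_)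
  simp [G, g, div_eq_mul_inv]

lemma two_le : (2 : WithTop ℕ∞) ≤ ∞ := WithTop.coe_le_coe.2 (le_top (a := (2:ℕ∞)))

lemma second {y x : E} (h : x ≠ y) (v : E) :
    fderiv ℝ (fderiv ℝ (G y)) x v v =
      (-g ‖x - y‖ - 3 * ps ‖x - y‖) / ‖x - y‖ ^ 2 * (⟪x - y, v⟫ : ℝ) ^ 2 + ps ‖x - y‖ * (⟪v, v⟫ : ℝ) := by
  have h0 : ‖x - y‖ ≠ 0 := norm_ne_zero_iff.2 (sub_ne_zero.2 h)
  have hd : DifferentiableAt ℝ (fderiv ℝ (G y)) x := by
    have := ((cdG h).of_le two_le).fderiv_right (m := 1) (by norm_num)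
    exact this.differentiableAt (by norm_num)
  have h1 : HasFDerivAt (fun z => fderiv ℝ (G y) z v)
      ((ContinuousLinearMap.apply ℝ ℂ v).comp (fderiv ℝ (fderiv ℝ (G y)) x)) x :=
    (ContinuousLinearMap.apply ℝ ℂ v).hasFDerivAt.comp x hd.hasFDerivAt
  obtain ⟨L, hL, hv⟩ := hrad h (hps h0)
  have h2 : HasFDerivAt (fun z : E => ((⟪z - y, v⟫ : ℝ) : ℂ))
      (Complex.ofRealCLM.comp (innerSL ℝ v)) x := by
    have h3 : HasFDerivAt (fun z : E => (innerSL ℝ v) (z - y)) ((innerSL ℝ v).comp (ContinuousLinearMap.id ℝ E)) x :=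
      (innerSL ℝ v).hasFDerivAt.comp x ((hasFDerivAt_id x).sub_const y)
    have h4 := Complex.ofRealCLM.hasFDerivAt.comp x h3
    refine h4.congr_of_eventuallyEq (Eventually.of_forall fun z => ?_)
    simp [real_inner_comm]
  have h5 := hL.mul h2
  have h6 : (fun z => fderiv ℝ (G y) z v) =ᶠ[𝓝 x]
      ((fun z : E => ps ‖z - y‖) * fun z : E => ((⟪z - y, v⟫ : ℝ) : ℂ)) := by
    filter_upwards [isOpen_ne.mem_nhds h] with z hz
    exact fdG hz v
  have h7 := (h5.congr_of_eventuallyEq h6).unique h1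
  have h8 := congrArg (fun M : E →L[ℝ] ℂ => M v) h7
  simp only [add_apply, smul_apply, ContinuousLinearMap.comp_apply,
    ContinuousLinearMap.apply_apply, innerSL_apply_apply, Complex.ofRealCLM_apply, smul_eq_mul, hv] at h8
  rw [← h8]
  ring

lemma lapG {y x : E} (h : x ≠ y) : Laplacian.laplacian (G y) x + G y x = 0 := by
  have h0 : ‖x - y‖ ≠ 0 := norm_ne_zero_iff.2 (sub_ne_zero.2 h)
  have h0' : ((‖x - y‖ : ℝ) : ℂ) ≠ 0 := by exact_mod_cast h0
  rw [InnerProductSpace.laplacian_eq_iteratedFDeriv_orthonormalBasis (G y) (EuclideanSpace.basisFun (Fin 3) ℝ)]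
  simp only [iteratedFDeriv_two_apply, Matrix.cons_val_zero, Matrix.cons_val_one, second h,
    EuclideanSpace.basisFun_apply, EuclideanSpace.inner_single_right, Fin.sum_univ_three]
  have hn : ((‖x - y‖ : ℝ) : ℂ) ^ 2 = ((x - y) 0 : ℝ) ^ 2 + ((x - y) 1 : ℝ) ^ 2 + ((x - y) 2 : ℝ) ^ 2 := by
    have := EuclideanSpace.real_norm_sq_eq (x - y)
    rw [Fin.sum_univ_three] at this
    exact_mod_cast this
  simp only [G]
  simp only [one_mul, conj_trivial, PiLp.single_apply, if_true, Complex.ofReal_one, mul_one]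
  field_simp
  linear_combination (g ‖x - y‖ + 3 * ps ‖x - y‖) * hn

end Pool.Agent.H.MP_871f9b_an
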