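import Pool.Agent.H.MP_871f9b_an.A

set_option autoImplicit false

namespace Pool.Agent.H.MP_871f9b_an

open Complex Filter Topology MeasureTheory
open scoped ContDiff RealInnerProductSpace

noncomputable def y1 : E := EuclideanSpace.single 0 3
noncomputable def y2 : E := EuclideanSpace.single 0 (-3)
noncomputable def u (x : E) : ℂ := G y1 x + G y2 x
noncomputable def q (x : E) : ℝ :=
  ‖u x‖ ^ 2 - ∑ i, ‖fderiv ℝ u x (EuclideanSpace.single i 1)‖ ^ 2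

noncomputable def Q (s t : ℝ) : ℝ :=
  (-(s ^ 4 + t ^ 4) / (s * t) + Real.cos (s - t) * (s * t * (34 - (s - t) ^ 2) + (36 - (s - t) ^ 2))
    - (s - t) * Real.sin (s - t) * (2 * (s * t) + (s - t) ^ 2 - 36)) / (s * t) ^ 3

lemma cdu {x : E} (h1 : x ≠ y1) (h2 : x ≠ y2) : ContDiffAt ℝ ∞ u x := (cdG h1).add (cdG h2)

lemma fdu {x : E} (h1 : x ≠ y1) (h2 : x ≠ y2) (v : E) :
    fderiv ℝ u x v = ps ‖x - y1‖ * (⟪x - y1, v⟫ : ℝ) + ps ‖x - y2‖ * (⟪x - y2, v⟫ : ℝ) := by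
  have d1 := (cdG h1).differentiableAt (by simp)
  have d2 := (cdG h2).differentiableAt (by simp)
  have : fderiv ℝ u x = fderiv ℝ (G y1) x + fderiv ℝ (G y2) x := (d1.hasFDerivAt.add d2.hasFDerivAt).fderiv
  rw [this, add_apply, fdG h1, fdG h2]

lemma lapu {x : E} (h1 : x ≠ y1) (h2 : x ≠ y2) : Laplacian.laplacian u x + u x = 0 := by
  have := ContDiffAt.laplacian_add ((cdG h1).of_le two_le) ((cdG h2).of_le two_le)
  have e : u = G y1 + G y2 := rfl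
  rw [e, this, Pi.add_apply]
  linear_combination lapG h1 + lapG h2

lemma g_re (t : ℝ) : (g t).re = Real.cos t / t := by
  unfold g
  rw [Complex.div_ofReal_re, mul_comm, Complex.exp_ofReal_mul_I_re]
lemma g_im (t : ℝ) : (g t).im = Real.sin t / t := by
  unfold g
  rw [Complex.div_ofReal_im, mul_comm, Complex.exp_ofReal_mul_I_im]
lemma ps_re (t : ℝ) : (ps t).re = (-Real.cos t - t * Real.sin t) / t ^ 3 := by
  unfold ps
  rw [← Complex.ofReal_pow, Complex.div_ofReal_re, Complex.mul_re, mul_comm I (t : ℂ),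
    Complex.exp_ofReal_mul_I_re, Complex.exp_ofReal_mul_I_im]
  simp
lemma ps_im (t : ℝ) : (ps t).im = (t * Real.cos t - Real.sin t) / t ^ 3 := by
  unfold ps
  rw [← Complex.ofReal_pow, Complex.div_ofReal_im, Complex.mul_im, mul_comm I (t : ℂ),
    Complex.exp_ofReal_mul_I_re, Complex.exp_ofReal_mul_I_im]
  simp
  ring

lemma n1 (x : E) : ‖x - y1‖ ^ 2 = (x 0 - 3) ^ 2 + x 1 ^ 2 + x 2 ^ 2 := by
  rw [EuclideanSpace.real_norm_sq_eq, Fin.sum_univ_three]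
  simp [y1]
lemma n2 (x : E) : ‖x - y2‖ ^ 2 = (x 0 + 3) ^ 2 + x 1 ^ 2 + x 2 ^ 2 := by
  rw [EuclideanSpace.real_norm_sq_eq, Fin.sum_univ_three]
  simp [y2]
lemma n0 (x : E) : ‖x‖ ^ 2 = x 0 ^ 2 + x 1 ^ 2 + x 2 ^ 2 := by
  rw [EuclideanSpace.real_norm_sq_eq, Fin.sum_univ_three]

lemma sumsq (p r : ℂ) (a b c : ℝ) :
    ‖p * (a - 3 : ℝ) + r * (a + 3 : ℝ)‖ ^ 2 + ‖p * b + r * b‖ ^ 2 + ‖p * c + r * c‖ ^ 2 =
      (p.re ^ 2 + p.im ^ 2) * ((a - 3) ^ 2 + b ^ 2 + c ^ 2) + (r.re ^ 2 + r.im ^ 2) * ((a + 3) ^ 2 + b ^ 2 + c ^ 2)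
      + (p.re * r.re + p.im * r.im) * (((a - 3) ^ 2 + b ^ 2 + c ^ 2) + ((a + 3) ^ 2 + b ^ 2 + c ^ 2) - 36) := by
  simp only [Complex.sq_norm, Complex.normSq_apply, Complex.add_re, Complex.add_im, Complex.mul_re,
    Complex.mul_im, Complex.ofReal_re, Complex.ofReal_im]
  ring

lemma q_eq {x : E} (h1 : x ≠ y1) (h2 : x ≠ y2) : q x = Q ‖x - y1‖ ‖x - y2‖ := by
  have a0 : ‖x - y1‖ ≠ 0 := norm_ne_zero_iff.2 (sub_ne_zero.2 h1)
  have b0 : ‖x - y2‖ ≠ 0 := norm_ne_zero_iff.2 (sub_ne_zero.2 h2)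
  unfold q
  rw [Fin.sum_univ_three, fdu h1 h2, fdu h1 h2, fdu h1 h2]
  simp only [EuclideanSpace.inner_single_right, one_mul, conj_trivial]
  have e1 : (x - y1) 0 = x 0 - 3 := by simp [y1]
  have e2 : (x - y1) 1 = x 1 := by simp [y1]
  have e3 : (x - y1) 2 = x 2 := by simp [y1]
  have e4 : (x - y2) 0 = x 0 + 3 := by simp [y2]
  have e5 : (x - y2) 1 = x 1 := by simp [y2]
  have e6 : (x - y2) 2 = x 2 := by simp [y2]
  rw [e1, e2, e3, e4, e5, e6, sumsq, ← n1, ← n2]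
  unfold u G
  generalize ‖x - y1‖ = s at a0 ⊢
  generalize ‖x - y2‖ = t at b0 ⊢
  rw [Complex.sq_norm, Complex.normSq_apply, Complex.add_re, Complex.add_im, g_re, g_re, g_im, g_im,
    ps_re, ps_re, ps_im, ps_im]
  unfold Q
  rw [Real.cos_sub, Real.sin_sub]
  have c1 := Real.sin_sq_add_cos_sq s
  have c2 := Real.sin_sq_add_cos_sq t
  generalize Real.sin s = S1 at *
  generalize Real.cos s = C1 at *
  generalize Real.sin t = S2 at *
  generalize Real.cos t = C2 at *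
  field_simp
  linear_combination (-t ^ 4) * c1 + (-s ^ 4) * c2

lemma Q_low {s t : ℝ} (hs : 5 / 2 ≤ s) (ht : 5 / 2 ≤ t) (hd : |s - t| ≤ 1) : 5 / (s * t) ^ 2 ≤ Q s t := by
  have hP : 25 / 4 ≤ s * t := by nlinarith
  have hP0 : 0 < s * t := by linarith
  have hd2 : (s - t) ^ 2 ≤ 1 := by
    have := abs_le.1 hd; nlinarith
  have hc : 1 / 2 ≤ Real.cos (s - t) := by
    have := Real.one_sub_sq_div_two_le_cos (x := s - t); linarith
  have hsn : |(s - t) * Real.sin (s - t)| ≤ 1 := by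
    rw [abs_mul]
    exact mul_le_one₀ hd (abs_nonneg _) (Real.abs_sin_le_one _)
  have h1 : (s ^ 4 + t ^ 4) / (s * t) ≤ 3 * (s * t) := by
    rw [div_le_iff₀ hP0]
    have e : s ^ 4 + t ^ 4 = (2 * (s * t) + (s - t) ^ 2) ^ 2 - 2 * (s * t) ^ 2 := by ring
    have hd0 : 0 ≤ (s - t) ^ 2 := sq_nonneg _
    rw [e]
    generalize s * t = P at *
    generalize (s - t) ^ 2 = D at *
    nlinarith
  have h2 : 33 / 2 * (s * t) ≤ Real.cos (s - t) * (s * t * (34 - (s - t) ^ 2) + (36 - (s - t) ^ 2)) := by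
    have : 33 * (s * t) ≤ s * t * (34 - (s - t) ^ 2) + (36 - (s - t) ^ 2) := by nlinarith
    nlinarith
  have h3 : (s - t) * Real.sin (s - t) * (2 * (s * t) + (s - t) ^ 2 - 36) ≤ 8 * (s * t) := by
    have h4 : |2 * (s * t) + (s - t) ^ 2 - 36| ≤ 8 * (s * t) := by
      rw [abs_le]; constructor <;> nlinarith [sq_nonneg (s - t)]
    calc _ ≤ |(s - t) * Real.sin (s - t) * (2 * (s * t) + (s - t) ^ 2 - 36)| := le_abs_self _
      _ = |(s - t) * Real.sin (s - t)| * |2 * (s * t) + (s - t) ^ 2 - 36| := abs_mul _ _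
      _ ≤ 1 * (8 * (s * t)) := mul_le_mul hsn h4 (abs_nonneg _) (by norm_num)
      _ = _ := one_mul _
  unfold Q
  rw [div_le_div_iff₀ (by positivity) (by positivity), neg_div]
  have h5 : 5 * (s * t) ≤ -((s ^ 4 + t ^ 4) / (s * t)) + Real.cos (s - t) * (s * t * (34 - (s - t) ^ 2) + (36 - (s - t) ^ 2))
    - (s - t) * Real.sin (s - t) * (2 * (s * t) + (s - t) ^ 2 - 36) := by linarith
  have h6 := mul_le_mul_of_nonneg_right h5 (sq_nonneg (s * t))
  calc 5 * (s * t) ^ 3 = 5 * (s * t) * (s * t) ^ 2 := by ring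
    _ ≤ _ := h6

lemma Q_abs {s t : ℝ} (hs : 1 ≤ s) (ht : 1 ≤ t) (hd : |s - t| ≤ 6) : |Q s t| ≤ 2000 / (s * t) ^ 2 := by
  have hP : 1 ≤ s * t := by nlinarith
  have hP0 : 0 < s * t := by linarith
  have hd0 : 0 ≤ (s - t) ^ 2 := sq_nonneg _
  have hd2 : (s - t) ^ 2 ≤ 36 := by
    have := abs_le.1 hd; nlinarith
  have hsn : |(s - t) * Real.sin (s - t)| ≤ 6 := by
    rw [abs_mul]
    calc _ ≤ 6 * 1 := mul_le_mul hd (Real.abs_sin_le_one _) (abs_nonneg _) (by norm_num)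
      _ = 6 := by norm_num
  have h1 : |-(s ^ 4 + t ^ 4) / (s * t)| ≤ 1444 * (s * t) := by
    rw [neg_div, abs_neg, abs_of_nonneg (by positivity), div_le_iff₀ hP0]
    have e : s ^ 4 + t ^ 4 = (2 * (s * t) + (s - t) ^ 2) ^ 2 - 2 * (s * t) ^ 2 := by ring
    rw [e]
    generalize s * t = P at *
    generalize (s - t) ^ 2 = D at *
    have : 2 * P + D ≤ 38 * P := by linarith
    have h0 : 0 ≤ 2 * P + D := by linarith
    nlinarith [mul_self_le_mul_self h0 this]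
  have h2 : |Real.cos (s - t) * (s * t * (34 - (s - t) ^ 2) + (36 - (s - t) ^ 2))| ≤ 72 * (s * t) := by
    rw [abs_mul]
    have : |s * t * (34 - (s - t) ^ 2) + (36 - (s - t) ^ 2)| ≤ 72 * (s * t) := by
      rw [abs_le]; constructor <;> nlinarith
    calc _ ≤ 1 * (72 * (s * t)) := mul_le_mul (Real.abs_cos_le_one _) this (abs_nonneg _) (by norm_num)
      _ = _ := one_mul _
  have h3 : |(s - t) * Real.sin (s - t) * (2 * (s * t) + (s - t) ^ 2 - 36)| ≤ 6 * (38 * (s * t)) := by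
    rw [abs_mul]
    have h4 : |2 * (s * t) + (s - t) ^ 2 - 36| ≤ 38 * (s * t) := by
      rw [abs_le]; constructor <;> nlinarith
    exact mul_le_mul hsn h4 (abs_nonneg _) (by norm_num)
  unfold Q
  rw [abs_div, abs_of_pos (pow_pos hP0 3), div_le_div_iff₀ (by positivity) (by positivity)]
  have h5 : |-(s ^ 4 + t ^ 4) / (s * t) + Real.cos (s - t) * (s * t * (34 - (s - t) ^ 2) + (36 - (s - t) ^ 2))
    - (s - t) * Real.sin (s - t) * (2 * (s * t) + (s - t) ^ 2 - 36)| ≤ 2000 * (s * t) := by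
    have a1 := abs_le.1 h1
    have a2 := abs_le.1 h2
    have a3 := abs_le.1 h3
    rw [abs_le]; constructor <;> linarith [a1.1, a1.2, a2.1, a2.2, a3.1, a3.2]
  have h6 := mul_le_mul_of_nonneg_right h5 (sq_nonneg (s * t))
  calc _ ≤ 2000 * (s * t) * (s * t) ^ 2 := h6
    _ = _ := by ring

end Pool.Agent.H.MP_871f9b_an
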