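import Pool.Agent.H.MP_871f9b_an.B

set_option autoImplicit false

namespace Pool.Agent.H.MP_871f9b_an

open Filter Topology MeasureTheory Set
open scoped ContDiff RealInnerProductSpace

noncomputable def F (B : ℝ) (x : E) : ℝ :=
  (x 0 ^ 2 + x 1 ^ 2 + x 2 ^ 2 + (B / 2 + 1 / 16)) ^ 2 - 4 * (B + 1 / 4) ^ 2 * (x 0 ^ 2 + x 1 ^ 2)

lemma cdF (B : ℝ) : ContDiff ℝ ∞ (F B) := by
  unfold F
  have h : ∀ i : Fin 3, ContDiff ℝ ∞ (fun x : E => x i) := fun i =>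
    (EuclideanSpace.proj (𝕜 := ℝ) i).contDiff
  have h0 := h 0
  have h1 := h 1
  have h2 := h 2
  fun_prop

lemma fdF (B : ℝ) (x v : E) : fderiv ℝ (F B) x v =
    4 * (x 0 ^ 2 + x 1 ^ 2 + x 2 ^ 2 + (B / 2 + 1 / 16)) * (x 0 * v 0 + x 1 * v 1 + x 2 * v 2)
      - 8 * (B + 1 / 4) ^ 2 * (x 0 * v 0 + x 1 * v 1) := by
  have h : ∀ i : Fin 3, HasFDerivAt (fun x : E => x i) (EuclideanSpace.proj (𝕜 := ℝ) i : E →L[ℝ] ℝ) x :=
    fun i => (EuclideanSpace.proj (𝕜 := ℝ) i : E →L[ℝ] ℝ).hasFDerivAt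
  have h1 := ((((((h 0).pow 2).add ((h 1).pow 2)).add ((h 2).pow 2)).add_const (B / 2 + 1 / 16)).pow 2).sub
    ((((h 0).pow 2).add ((h 1).pow 2)).const_mul (4 * (B + 1 / 4) ^ 2))
  have h2 : fderiv ℝ (F B) x = _ := h1.fderiv
  rw [h2]
  simp
  ring

lemma reg {B : ℝ} (hB : 0 < B) {x : E} (hx : F B x = 0) : fderiv ℝ (F B) x ≠ 0 := by
  intro h
  have a0 := fdF B x (EuclideanSpace.single 0 1)
  have a1 := fdF B x (EuclideanSpace.single 1 1)
  have a2 := fdF B x (EuclideanSpace.single 2 1)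
  rw [h] at a0 a1 a2
  simp at a0 a1 a2
  unfold F at hx
  set s := x 0 ^ 2 + x 1 ^ 2 + x 2 ^ 2 + (B / 2 + 1 / 16) with hs
  have hs' : x 0 ^ 2 + x 1 ^ 2 + x 2 ^ 2 + (B / 2 + 16⁻¹) = s := by rw [hs]; norm_num
  have hA : B + 4⁻¹ = B + 1 / 4 := by norm_num
  rw [hs'] at a0 a1 a2
  rw [hA] at a0 a1
  have hs0 : 0 < s := by positivity
  have z2 : x 2 = 0 := by
    rcases a2 with a2 | a2
    · exact absurd a2 hs0.ne'
    · exact a2
  by_cases hc : s = 2 * (B + 1 / 4) ^ 2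
  · have hr : x 0 ^ 2 + x 1 ^ 2 = (B + 1 / 4) ^ 2 := by
      have hp : 0 < 4 * (B + 1 / 4) ^ 2 := by positivity
      have : 4 * (B + 1 / 4) ^ 2 * (x 0 ^ 2 + x 1 ^ 2) = 4 * (B + 1 / 4) ^ 2 * (B + 1 / 4) ^ 2 := by
        rw [hc] at hx; linarith
      exact mul_left_cancel₀ hp.ne' this
    rw [z2] at hs
    nlinarith
  · have hne : 4 * s - 8 * (B + 1 / 4) ^ 2 ≠ 0 := fun h => hc (by linarith)
    have z0 : x 0 = 0 := by
      have : (4 * s - 8 * (B + 1 / 4) ^ 2) * x 0 = 0 := by linarith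
      exact (mul_eq_zero.1 this).resolve_left hne
    have z1 : x 1 = 0 := by
      have : (4 * s - 8 * (B + 1 / 4) ^ 2) * x 1 = 0 := by linarith
      exact (mul_eq_zero.1 this).resolve_left hne
    rw [z0, z1] at hx
    nlinarith

def V (B : ℝ) : Set E := {x | F B x ≤ 0}

lemma closedV (B : ℝ) : IsClosed (V B) := isClosed_le (cdF B).continuous continuous_const

lemma normV {B : ℝ} (hB : 0 < B) {x : E} (hx : x ∈ V B) : ‖x‖ ≤ 2 * (B + 1 / 4) := by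
  have h : F B x ≤ 0 := hx
  unfold F at h
  have hn := n0 x
  by_contra hc
  push Not at hc
  have h1 : x 0 ^ 2 + x 1 ^ 2 ≤ ‖x‖ ^ 2 := by nlinarith [sq_nonneg (x 2)]
  rw [← hn] at h
  have h2 : (2 * (B + 1 / 4)) ^ 2 < ‖x‖ ^ 2 := by
    apply pow_lt_pow_left₀ hc (by positivity) (by norm_num)
  have h3 : 0 < ‖x‖ ^ 2 := lt_of_le_of_lt (by positivity) h2
  generalize ‖x‖ ^ 2 = N at *
  have h4 : 4 * (B + 1 / 4) ^ 2 * (x 0 ^ 2 + x 1 ^ 2) ≤ 4 * (B + 1 / 4) ^ 2 * N :=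
    mul_le_mul_of_nonneg_left h1 (by positivity)
  nlinarith [mul_pos h3 (by positivity : 0 < B / 2 + 1 / 16)]

lemma compV {B : ℝ} (hB : 0 < B) : IsCompact (V B) :=
  (isCompact_closedBall (0 : E) (2 * (B + 1 / 4))).of_isClosed_subset (closedV B) fun x hx => by
    simpa using normV hB hx

lemma frontV {B : ℝ} (hB : 0 < B) : frontier (V B) = {x | F B x = 0} := by
  apply Subset.antisymm
  · exact frontier_le_subset_eq (cdF B).continuous continuous_const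
  · intro x hx
    have hx' : F B x = 0 := hx
    rw [(closedV B).frontier_eq]
    refine ⟨hx'.le, fun hi => reg hB hx' ?_⟩
    have : IsLocalMax (F B) x := by
      filter_upwards [mem_interior_iff_mem_nhds.1 hi] with z hz
      rw [hx']; exact hz
    exact this.fderiv_eq_zero

lemma clintV {B : ℝ} (hB : 0 < B) : closure (interior (V B)) = V B := by
  apply Subset.antisymm (closure_minimal interior_subset (closedV B))
  have hsub : {x | F B x < 0} ⊆ interior (V B) :=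
    interior_maximal (fun x (hx : F B x < 0) => (le_of_lt hx : F B x ≤ 0)) (isOpen_lt (cdF B).continuous continuous_const)
  intro x hx
  rcases lt_or_eq_of_le (show F B x ≤ 0 from hx) with h | h
  · exact subset_closure (hsub h)
  · by_contra hc
    refine reg hB h ?_
    have : IsLocalMin (F B) x := by
      filter_upwards [isClosed_closure.isOpen_compl.mem_nhds hc] with z hz
      rw [h]
      by_contra hz'
      exact hz (subset_closure (hsub (not_le.1 hz')))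
    exact this.fderiv_eq_zero

lemma clcomp {B : ℝ} {x : E} (hx : x ∈ closure (V B)ᶜ) : 0 ≤ F B x := by
  have : closure (V B)ᶜ ⊆ {x | 0 ≤ F B x} :=
    closure_minimal (fun z (hz : ¬ F B z ≤ 0) => (le_of_lt (not_le.1 hz) : 0 ≤ F B z)) (isClosed_le continuous_const (cdF B).continuous)
  exact this hx

lemma connV {B : ℝ} (hB : 0 < B) : IsConnected (V B) := by
  let K : Set (ℝ × ℝ) := {p | (p.1 - (B + 1 / 4)) ^ 2 + p.2 ^ 2 ≤ B ^ 2}
  have hK : Convex ℝ K := by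
    intro p hp r hr a b ha hb hab
    have hp' : (p.1 - (B + 1 / 4)) ^ 2 + p.2 ^ 2 ≤ B ^ 2 := hp
    have hr' : (r.1 - (B + 1 / 4)) ^ 2 + r.2 ^ 2 ≤ B ^ 2 := hr
    show ((a • p + b • r).1 - (B + 1 / 4)) ^ 2 + (a • p + b • r).2 ^ 2 ≤ B ^ 2
    simp only [Prod.fst_add, Prod.snd_add, Prod.smul_fst, Prod.smul_snd, smul_eq_mul]
    have hb' : b = 1 - a := by linarith
    subst hb'
    nlinarith [mul_nonneg (mul_nonneg ha hb) (sq_nonneg (p.1 - r.1)),
      mul_nonneg (mul_nonneg ha hb) (sq_nonneg (p.2 - r.2)), mul_le_mul_of_nonneg_left hp' ha,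
      mul_le_mul_of_nonneg_left hr' hb]
  let P : (ℝ × ℝ) × ℝ → E := fun w => !₂[w.1.1 * Real.cos w.2, w.1.1 * Real.sin w.2, w.1.2]
  have hP : Continuous P := by
    refine (PiLp.continuous_toLp 2 _).comp (continuous_pi fun i => ?_)
    fin_cases i <;> simp <;> fun_prop
  have he : V B = P '' (K ×ˢ univ) := by
    ext x
    constructor
    · intro hx
      have h : F B x ≤ 0 := hx
      unfold F at h
      let z : ℂ := ⟨x 0, x 1⟩
      have hz : ‖z‖ ^ 2 = x 0 ^ 2 + x 1 ^ 2 := by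
        rw [Complex.sq_norm, Complex.normSq_apply]; simp only [z]; ring
      refine ⟨((‖z‖, x 2), Complex.arg z), ⟨?_, trivial⟩, ?_⟩
      · show (‖z‖ - (B + 1 / 4)) ^ 2 + x 2 ^ 2 ≤ B ^ 2
        rw [← hz] at h
        have h1 : ‖z‖ ^ 2 + x 2 ^ 2 + (B / 2 + 1 / 16) ≤ 2 * (B + 1 / 4) * ‖z‖ := by
          apply abs_le_of_sq_le_sq' _ (by positivity) |>.2
          nlinarith
        nlinarith
      · ext i
        fin_cases i
        · exact Complex.norm_mul_cos_arg z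
        · exact Complex.norm_mul_sin_arg z
        · rfl
    · rintro ⟨w, ⟨hw, -⟩, rfl⟩
      have hw' : (w.1.1 - (B + 1 / 4)) ^ 2 + w.1.2 ^ 2 ≤ B ^ 2 := hw
      show F B _ ≤ 0
      unfold F
      have e0 : (P w) 0 = w.1.1 * Real.cos w.2 := rfl
      have e1 : (P w) 1 = w.1.1 * Real.sin w.2 := rfl
      have e2 : (P w) 2 = w.1.2 := rfl
      have e3 : (P w) 0 ^ 2 + (P w) 1 ^ 2 = w.1.1 ^ 2 := by
        rw [e0, e1]; linear_combination (w.1.1 ^ 2) * Real.sin_sq_add_cos_sq w.2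
      rw [e3, e2]
      have h1 : w.1.1 ^ 2 + w.1.2 ^ 2 + (B / 2 + 1 / 16) ≤ 2 * (B + 1 / 4) * w.1.1 := by nlinarith
      have h0 : 0 ≤ w.1.1 ^ 2 + w.1.2 ^ 2 + (B / 2 + 1 / 16) := by positivity
      nlinarith [mul_self_le_mul_self h0 h1]
  rw [he]
  have hne : K.Nonempty := ⟨(B + 1 / 4, 0), by simp [K]; positivity⟩
  exact ((hK.isConnected hne).prod isConnected_univ).image _ hP.continuousOn

lemma connC {B : ℝ} (hB : 0 < B) : IsConnected (V B)ᶜ := by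
  have hax : ∀ z : E, z 0 = 0 → z 1 = 0 → z ∈ (V B)ᶜ := by
    intro z h0 h1 hz
    have h : F B z ≤ 0 := hz
    unfold F at h
    rw [h0, h1] at h
    have : 0 < (0:ℝ) ^ 2 + 0 ^ 2 + z 2 ^ 2 + (B / 2 + 1 / 16) := by positivity
    nlinarith
  have hfar : ∀ z : E, 2 * (B + 1 / 4) < |z 2| → z ∈ (V B)ᶜ := by
    intro z h hz
    have h1 := normV hB hz
    have h2 : |z 2| ≤ ‖z‖ := by simpa using PiLp.norm_apply_le z 2
    linarith
  refine IsPathConnected.isConnected ⟨0, hax 0 rfl rfl, fun x hx => ?_⟩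
  obtain ⟨c, hc1, hc2⟩ : ∃ c : ℝ, 0 ≤ c * x 2 ∧ 2 * (B + 1 / 4) < |x 2 + c| := by
    rcases le_total 0 (x 2) with h | h
    · refine ⟨2 * (B + 1 / 4) + 1, by positivity, ?_⟩
      rw [abs_of_nonneg (by positivity)]; linarith
    · refine ⟨-(2 * (B + 1 / 4) + 1), by nlinarith, ?_⟩
      rw [abs_of_nonpos (by linarith)]; linarith
  let x1 : E := x + EuclideanSpace.single 2 c
  let x2 : E := EuclideanSpace.single 2 (x 2 + c)
  have j1 : JoinedIn (V B)ᶜ x x1 := by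
    apply JoinedIn.of_segment_subset
    rw [segment_eq_image']
    rintro _ ⟨t, ht, rfl⟩ hz
    apply hx
    have h : F B _ ≤ 0 := hz
    show F B x ≤ 0
    unfold F at h ⊢
    simp [x1] at h
    have h3 : x 2 ^ 2 ≤ (x 2 + t * c) ^ 2 := by nlinarith [mul_nonneg ht.1 hc1, sq_nonneg (t * c)]
    have h4 : 0 ≤ x 0 ^ 2 + x 1 ^ 2 + x 2 ^ 2 + (B / 2 + 1 / 16) := by positivity
    have h5 : x 0 ^ 2 + x 1 ^ 2 + x 2 ^ 2 + (B / 2 + 1 / 16) ≤
      x 0 ^ 2 + x 1 ^ 2 + (x 2 + t * c) ^ 2 + (B / 2 + 16⁻¹) := by linarith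
    have h6 := mul_self_le_mul_self h4 h5
    have hA : B + 4⁻¹ = B + 1 / 4 := by norm_num
    rw [hA] at h
    nlinarith
  have j2 : JoinedIn (V B)ᶜ x1 x2 := by
    apply JoinedIn.of_segment_subset
    rw [segment_eq_image']
    rintro _ ⟨t, ht, rfl⟩
    apply hfar
    simpa [x1, x2] using hc2
  have j3 : JoinedIn (V B)ᶜ x2 0 := by
    apply JoinedIn.of_segment_subset
    rw [segment_eq_image']
    rintro _ ⟨t, ht, rfl⟩
    apply hax <;> simp [x2]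
  exact ((j1.trans j2).trans j3).symm

lemma outside {T : ℝ} (hT : 0 < T) {x : E} (hx : 0 ≤ F (2 * T ^ 2) x) : |x 0| ≤ 1 / 2 ∨ T ≤ ‖x‖ := by
  by_contra hc
  push Not at hc
  obtain ⟨h1, h2⟩ := hc
  unfold F at hx
  rw [← n0] at hx
  have h3 : ‖x‖ ^ 2 < T ^ 2 := pow_lt_pow_left₀ h2 (norm_nonneg _) (by norm_num)
  have h4 : 1 / 4 < x 0 ^ 2 := by
    have := sq_abs (x 0); nlinarith
  have h5 : 0 ≤ ‖x‖ ^ 2 + (2 * T ^ 2 / 2 + 1 / 16) := by positivity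
  have h6 : ‖x‖ ^ 2 + (2 * T ^ 2 / 2 + 1 / 16) ≤ 2 * T ^ 2 + 1 / 4 := by linarith
  have h7 := mul_self_le_mul_self h5 h6
  have h8 : 0 < (2 * T ^ 2 + 1 / 4) ^ 2 := by positivity
  nlinarith [mul_nonneg h8.le (sq_nonneg (x 1)), mul_lt_mul_of_pos_left h4 h8]

lemma pocket {B : ℝ} (hB : 0 < B) {x : E} (hx : ‖x‖ < 1 / 4) : x ∈ (V B)ᶜ := by
  intro hz
  have h : F B x ≤ 0 := hz
  unfold F at h
  have hn := n0 x
  have h1 : x 0 ^ 2 + x 1 ^ 2 ≤ ‖x‖ ^ 2 := by nlinarith [sq_nonneg (x 2)]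
  rw [← hn] at h
  have h0 := norm_nonneg x
  generalize ‖x‖ = r at *
  have h4 : 4 * (B + 1 / 4) ^ 2 * (x 0 ^ 2 + x 1 ^ 2) ≤ 4 * (B + 1 / 4) ^ 2 * r ^ 2 :=
    mul_le_mul_of_nonneg_left h1 (by positivity)
  have h5 : 2 * (B + 1 / 4) * r < r ^ 2 + (B / 2 + 1 / 16) := by nlinarith
  have h6 : 0 ≤ 2 * (B + 1 / 4) * r := by positivity
  nlinarith [mul_self_lt_mul_self h6 h5]

end Pool.Agent.H.MP_871f9b_an
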