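import Pool.Agent.H.MP_871f9b_an.C

set_option autoImplicit false

namespace Pool.Agent.H.MP_871f9b_an

open Filter Topology MeasureTheory Set
open scoped ContDiff RealInnerProductSpace

lemma ny1 : ‖y1‖ = 3 := by simp [y1]
lemma ny2 : ‖y2‖ = 3 := by simp [y2]

lemma d12 (x : E) : |‖x - y1‖ - ‖x - y2‖| ≤ 6 ∧ 6 ≤ ‖x - y1‖ + ‖x - y2‖ := by
  have h : ‖(x - y1) - (x - y2)‖ = 6 := by
    have : (x - y1) - (x - y2) = EuclideanSpace.single 0 (-6) := by
      ext i; fin_cases i <;> simp [y1, y2]; norm_num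
    rw [this]; simp
  exact ⟨h ▸ abs_norm_sub_norm_le _ _, h ▸ norm_sub_le _ _⟩

lemma slab {x : E} (hx : |x 0| ≤ 1 / 2) :
    5 / 2 ≤ ‖x - y1‖ ∧ 5 / 2 ≤ ‖x - y2‖ ∧ |‖x - y1‖ - ‖x - y2‖| ≤ 1 := by
  have h := abs_le.1 hx
  have a1 := n1 x
  have a2 := n2 x
  have p1 := norm_nonneg (x - y1)
  have p2 := norm_nonneg (x - y2)
  have s := (d12 x).2
  generalize ‖x - y1‖ = r at *
  generalize ‖x - y2‖ = t at *
  refine ⟨?_, ?_, ?_⟩
  · apply abs_le_of_sq_le_sq' _ p1 |>.2
    nlinarith [sq_nonneg (x 1), sq_nonneg (x 2)]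
  · apply abs_le_of_sq_le_sq' _ p2 |>.2
    nlinarith [sq_nonneg (x 1), sq_nonneg (x 2)]
  · have e : (r - t) * (r + t) = -12 * x 0 := by linarith
    rw [abs_le]; constructor
    · by_contra hc
      push Not at hc
      nlinarith
    · by_contra hc
      push Not at hc
      nlinarith

lemma away {T : ℝ} (hT : 4 ≤ T) {x : E} (hx : 0 ≤ F (2 * T ^ 2) x) : 1 ≤ ‖x - y1‖ ∧ 1 ≤ ‖x - y2‖ := by
  rcases outside (by linarith) hx with h | h
  · have := slab h
    exact ⟨by linarith [this.1], by linarith [this.2.1]⟩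
  · have a := norm_sub_norm_le x y1
    have b := norm_sub_norm_le x y2
    rw [ny1] at a
    rw [ny2] at b
    exact ⟨by linarith, by linarith⟩

lemma ne_of_away {x y : E} (h : 1 ≤ ‖x - y‖) : x ≠ y := by
  rintro rfl
  simp at h
  linarith

noncomputable def bd (x : E) : ℝ := 1250000 * (1 + ‖x‖) ^ (-4 : ℝ)

lemma bd_int : Integrable bd := by
  refine (integrable_one_add_norm (E := E) (μ := volume) (r := 4) ?_).const_mul _
  simp; norm_num

lemma q_abs {x : E} (h1 : 1 ≤ ‖x - y1‖) (h2 : 1 ≤ ‖x - y2‖) : |q x| ≤ bd x := by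
  rw [q_eq (ne_of_away h1) (ne_of_away h2)]
  refine (Q_abs h1 h2 (d12 x).1).trans ?_
  have a := norm_sub_norm_le x y1
  have b := norm_sub_norm_le x y2
  rw [ny1] at a
  rw [ny2] at b
  have p := norm_nonneg x
  unfold bd
  rw [Real.rpow_neg (by positivity), show (4 : ℝ) = ((4 : ℕ) : ℝ) by norm_num, Real.rpow_natCast,
    ← div_eq_mul_inv, div_le_div_iff₀ (by positivity) (by positivity)]
  generalize ‖x - y1‖ = r at *
  generalize ‖x - y2‖ = t at *
  generalize ‖x‖ = R at *
  have c1 : 1 + R ≤ 5 * r := by linarith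
  have c2 : 1 + R ≤ 5 * t := by linarith
  have c3 : (1 + R) * (1 + R) ≤ (5 * r) * (5 * t) := mul_le_mul c1 c2 (by positivity) (by positivity)
  have c4 := mul_self_le_mul_self (by positivity) c3
  nlinarith

lemma q_cont {x : E} (h1 : x ≠ y1) (h2 : x ≠ y2) : ContinuousAt q x := by
  have c := (cdu h1 h2).of_le two_le
  have c1 : ContinuousAt u x := c.continuousAt
  have c2 : ContinuousAt (fderiv ℝ u) x := (c.fderiv_right (m := 1) (by norm_num)).continuousAt
  unfold q
  simp only [Fin.sum_univ_three]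
  fun_prop

lemma q_int {T : ℝ} (hT : 4 ≤ T) : IntegrableOn q (V (2 * T ^ 2))ᶜ := by
  have hm : MeasurableSet (V (2 * T ^ 2))ᶜ := (closedV _).measurableSet.compl
  have hc : ContinuousOn q (V (2 * T ^ 2))ᶜ := fun x hx =>
    have := away hT (clcomp (subset_closure hx))
    (q_cont (ne_of_away this.1) (ne_of_away this.2)).continuousWithinAt
  refine Integrable.mono' bd_int.integrableOn (hc.aestronglyMeasurable hm) ?_
  refine (ae_restrict_iff' hm).2 (ae_of_all _ fun x hx => ?_)
  have := away hT (clcomp (subset_closure hx))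
  exact q_abs this.1 this.2

lemma tail : Tendsto (fun n : ℕ => ∫ x in {x : E | (n : ℝ) ≤ ‖x‖}, bd x) atTop (𝓝 0) := by
  have h := tendsto_setIntegral_of_antitone (μ := (volume : Measure E)) (f := bd)
    (s := fun n : ℕ => {x : E | (n : ℝ) ≤ ‖x‖})
    (fun n => (isClosed_le continuous_const continuous_norm).measurableSet)
    (fun m n hmn x (hx : (n : ℝ) ≤ ‖x‖) => le_trans (by exact_mod_cast hmn) hx) ⟨0, bd_int.integrableOn⟩
  have e : (⋂ n : ℕ, {x : E | (n : ℝ) ≤ ‖x‖}) = ∅ := by
    ext x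
    simp only [mem_iInter, mem_ofPred_eq, mem_empty_iff_false, iff_false, not_forall, not_le]
    exact exists_nat_gt _
  rw [e] at h
  simpa using h

lemma q_pos : ∃ T : ℝ, 4 ≤ T ∧ 0 < ∫ x in (V (2 * T ^ 2))ᶜ, q x := by
  have hv : 0 < (volume (Metric.ball (0 : E) (1 / 4))).toReal :=
    ENNReal.toReal_pos (Metric.measure_ball_pos _ _ (by norm_num)).ne' measure_ball_lt_top.ne
  set d : ℝ := (volume (Metric.ball (0 : E) (1 / 4))).toReal * (5 / 256) with hd
  have hd0 : 0 < d := by positivity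
  obtain ⟨n, hn, hn4⟩ := ((tail.eventually (gt_mem_nhds hd0)).and (eventually_ge_atTop 4)).exists
  have hT : (4 : ℝ) ≤ n := by exact_mod_cast hn4
  refine ⟨n, hT, ?_⟩
  have hB : 0 < 2 * (n : ℝ) ^ 2 := by positivity
  have hm : MeasurableSet (V (2 * (n : ℝ) ^ 2))ᶜ := (closedV _).measurableSet.compl
  have hS : MeasurableSet {x : E | (n : ℝ) ≤ ‖x‖} :=
    (isClosed_le continuous_const continuous_norm).measurableSet
  have hbd : ∀ x, 0 ≤ bd x := fun x => by unfold bd; positivity
  have i1 : Integrable ((Metric.ball (0 : E) (1 / 4)).indicator fun _ => (5 / 256 : ℝ)) :=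
    (integrable_indicator_iff Metric.isOpen_ball.measurableSet).2 (integrableOn_const measure_ball_lt_top.ne)
  have i2 : Integrable ({x : E | (n : ℝ) ≤ ‖x‖}.indicator bd) := bd_int.indicator hS
  have key : ∫ x, ((Metric.ball (0 : E) (1 / 4)).indicator (fun _ => (5 / 256 : ℝ)) x
      - {x : E | (n : ℝ) ≤ ‖x‖}.indicator bd x) ≤ ∫ x, (V (2 * (n : ℝ) ^ 2))ᶜ.indicator q x := by
    refine integral_mono (i1.sub i2) ((integrable_indicator_iff hm).2 (q_int hT)) fun x => ?_
    have hlow : |x 0| ≤ 1 / 2 → 5 / (‖x - y1‖ * ‖x - y2‖) ^ 2 ≤ q x := fun h => by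
      have s := slab h
      rw [q_eq (ne_of_away (by linarith [s.1])) (ne_of_away (by linarith [s.2.1]))]
      exact Q_low s.1 s.2.1 s.2.2
    by_cases hb : x ∈ Metric.ball (0 : E) (1 / 4)
    · have hb' : ‖x‖ < 1 / 4 := by simpa using hb
      have hx : x ∉ {x : E | (n : ℝ) ≤ ‖x‖} := fun h => by
        have : (n : ℝ) ≤ ‖x‖ := h
        linarith
      simp only [indicator_of_mem hb, indicator_of_notMem hx, indicator_of_mem (pocket hB hb'), sub_zero]
      have h0 : |x 0| ≤ ‖x‖ := by simpa using PiLp.norm_apply_le x 0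
      have s := slab (x := x) (by linarith)
      refine le_trans ?_ (hlow (by linarith))
      have a := norm_sub_le x y1
      have b := norm_sub_le x y2
      rw [ny1] at a
      rw [ny2] at b
      have c : ‖x - y1‖ * ‖x - y2‖ ≤ 4 * 4 := mul_le_mul (by linarith) (by linarith) (norm_nonneg _) (by norm_num)
      have c0 : 0 < ‖x - y1‖ * ‖x - y2‖ := mul_pos (by linarith [s.1]) (by linarith [s.2.1])
      apply div_le_div_of_nonneg_left (by norm_num) (by positivity)
      nlinarith
    · simp only [indicator_of_notMem hb, zero_sub]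
      by_cases hv : x ∈ (V (2 * (n : ℝ) ^ 2))ᶜ
      · rw [indicator_of_mem hv]
        by_cases hx : x ∈ {x : E | (n : ℝ) ≤ ‖x‖}
        · rw [indicator_of_mem hx]
          have := away hT (clcomp (subset_closure hv))
          exact (abs_le.1 (q_abs this.1 this.2)).1
        · rw [indicator_of_notMem hx, neg_zero]
          rcases outside (by linarith) (clcomp (subset_closure hv)) with h | h
          · exact le_trans (by positivity) (hlow h)
          · exact absurd h hx
      · rw [indicator_of_notMem hv, neg_nonpos]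
        exact indicator_nonneg (fun z _ => hbd z) x
  rw [integral_sub i1 i2, integral_indicator hm, integral_indicator hS,
    integral_indicator Metric.isOpen_ball.measurableSet, setIntegral_const] at key
  simp only [smul_eq_mul, Measure.real] at key
  linarith

end Pool.Agent.H.MP_871f9b_an
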