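import Pool.Agent.H.MP_871f9b_an.D

set_option autoImplicit false

namespace Pool.Agent.H.MP_871f9b_an

open Filter Topology MeasureTheory Set
open scoped ContDiff RealInnerProductSpace

noncomputable def ff (y z : E) : ℂ := Complex.exp (Complex.I * (-⟪z, y⟫ : ℝ))

lemma cdff (y : E) : ContDiff ℝ ∞ (ff y) := by
  have h1 : ContDiff ℝ ∞ (fun z : E => -⟪z, y⟫) := (contDiff_id.inner ℝ contDiff_const).neg
  have h2 : ContDiff ℝ ∞ (fun z : E => ((-⟪z, y⟫ : ℝ) : ℂ)) := Complex.ofRealCLM.contDiff.comp h1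
  exact (contDiff_const.mul h2).cexp

lemma asy {y : E} (hy : ‖y‖ = 3) {x : E} (hx : 4 ≤ ‖x‖) :
    ‖(‖x‖ : ℂ) * Complex.exp (-(Complex.I * ‖x‖)) * G y x - ff y (‖x‖⁻¹ • x)‖ ≤ 12 / (‖x‖ - 3) := by
  have hR : 0 < ‖x‖ := by linarith
  have a := abs_le.1 (abs_norm_sub_norm_le x (x - y))
  rw [sub_sub_cancel, hy] at a
  have hr2 : ‖x - y‖ ^ 2 = ‖x‖ ^ 2 - 2 * ⟪x, y⟫ + 9 := by
    rw [norm_sub_sq_real, hy]; norm_num
  have hp : |⟪x, y⟫| ≤ ‖x‖ * 3 := hy ▸ abs_real_inner_le_norm x y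
  unfold G g ff
  rw [real_inner_smul_left]
  generalize ‖x - y‖ = r at *
  generalize ⟪x, y⟫ = p at *
  generalize ‖x‖ = R at *
  have hr : 0 < r := by linarith [a.2]
  have hr' : (r : ℂ) ≠ 0 := by exact_mod_cast hr.ne'
  have e : (R : ℂ) * Complex.exp (-(Complex.I * R)) * (Complex.exp (Complex.I * r) / r)
      - Complex.exp (Complex.I * (-(R⁻¹ * p) : ℝ)) =
      ((R / r - 1 : ℝ) : ℂ) * Complex.exp (Complex.I * (r - R : ℝ)) +
      Complex.exp (Complex.I * (-(R⁻¹ * p) : ℝ)) * (Complex.exp (Complex.I * (r - R + R⁻¹ * p : ℝ)) - 1) := by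
    have e1 : Complex.exp (Complex.I * (-(R⁻¹ * p) : ℝ)) * Complex.exp (Complex.I * (r - R + R⁻¹ * p : ℝ))
        = Complex.exp (Complex.I * (r - R : ℝ)) := by
      rw [← Complex.exp_add]; congr 1; push_cast; ring
    have e2 : Complex.exp (-(Complex.I * R)) * Complex.exp (Complex.I * r) = Complex.exp (Complex.I * (r - R : ℝ)) := by
      rw [← Complex.exp_add]; congr 1; push_cast; ring
    rw [mul_sub, e1, ← e2]
    push_cast
    field_simp
    ring
  rw [e]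
  have n1 : ∀ t : ℝ, ‖Complex.exp (Complex.I * t)‖ = 1 := fun t => by
    rw [mul_comm]; exact Complex.norm_exp_ofReal_mul_I t
  refine (norm_add_le _ _).trans ?_
  rw [norm_mul, norm_mul, n1, n1, mul_one, one_mul, Complex.norm_real, Real.norm_eq_abs]
  have b1 : |R / r - 1| ≤ 3 / (R - 3) := by
    have : R / r - 1 = (R - r) / r := by field_simp
    rw [this, abs_div, abs_of_pos hr]
    exact div_le_div₀ (by norm_num) (abs_le.2 a) (by linarith) (by linarith [a.2])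
  have b2 : |r - R + R⁻¹ * p| ≤ 9 / (R - 3) := by
    set w := R⁻¹ * p with hw
    have hpw : p = R * w := by rw [hw]; field_simp
    have hw3 : |w| ≤ 3 := by
      rw [hpw, abs_mul, abs_of_pos hR] at hp
      exact le_of_mul_le_mul_left hp hR
    have hw3' := abs_le.1 hw3
    have hs : 0 < r + R - w := by linarith
    have e3 : r - R + w = (9 - w ^ 2) / (r + R - w) := by
      rw [eq_div_iff hs.ne']; rw [hpw] at hr2; linarith
    rw [e3, abs_div, abs_of_pos hs]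
    refine div_le_div₀ (by norm_num) ?_ (by linarith) (by linarith)
    rw [abs_le]; constructor <;> nlinarith
  have b3 := Real.norm_exp_I_mul_ofReal_sub_one_le (x := r - R + R⁻¹ * p)
  rw [Real.norm_eq_abs] at b3
  have : 12 / (R - 3) = 3 / (R - 3) + 9 / (R - 3) := by ring
  linarith

lemma asy_lim {y : E} (hy : ‖y‖ = 3) :
    Tendsto (fun x : E => (‖x‖ : ℂ) * Complex.exp (-(Complex.I * ‖x‖)) * G y x - ff y (‖x‖⁻¹ • x))
      (cocompact E) (𝓝 0) := by
  have h1 : Tendsto (fun x : E => ‖x‖) (cocompact E) atTop := tendsto_norm_cocompact_atTop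
  have h2 : Tendsto (fun x : E => 12 / (‖x‖ - 3)) (cocompact E) (𝓝 0) :=
    tendsto_const_nhds.div_atTop (tendsto_atTop_add_const_right _ (-3) h1)
  refine squeeze_zero_norm' ?_ h2
  filter_upwards [h1.eventually (eventually_ge_atTop 4)] with x hx
  exact asy hy hx

lemma g_sq {t : ℝ} (ht : t ≠ 0) : (g t).re ^ 2 + (g t).im ^ 2 = 1 / t ^ 2 := by
  rw [g_re, g_im]
  field_simp
  linear_combination Real.sin_sq_add_cos_sq t

lemma ps_sq {t : ℝ} (ht : t ≠ 0) : (ps t).re ^ 2 + (ps t).im ^ 2 = (1 + t ^ 2) / t ^ 6 := by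
  rw [ps_re, ps_im]
  field_simp
  linear_combination (1 + t ^ 2) * Real.sin_sq_add_cos_sq t

noncomputable def p0 : E := EuclideanSpace.single 0 (1 / 4)

lemma p0a : ‖p0 - y1‖ = 11 / 4 := by
  have := n1 p0
  have h : ‖p0 - y1‖ ^ 2 = (11 / 4) ^ 2 := by rw [this]; simp [p0]; norm_num
  exact (pow_left_inj₀ (norm_nonneg _) (by norm_num) two_ne_zero).1 h

lemma p0b : ‖p0 - y2‖ = 13 / 4 := by
  have := n2 p0
  have h : ‖p0 - y2‖ ^ 2 = (13 / 4) ^ 2 := by rw [this]; simp [p0]; norm_num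
  exact (pow_left_inj₀ (norm_nonneg _) (by norm_num) two_ne_zero).1 h

lemma p0F (B : ℝ) : F B p0 = 0 := by
  unfold F
  simp [p0]
  ring

lemma p0u : u p0 ≠ 0 := by
  unfold u G
  rw [p0a, p0b]
  intro h
  have a := g_sq (t := 11 / 4) (by norm_num)
  have b := g_sq (t := 13 / 4) (by norm_num)
  have e : g (11 / 4) = -g (13 / 4) := eq_neg_of_add_eq_zero_left h
  rw [e, Complex.neg_re, Complex.neg_im, neg_sq, neg_sq, b] at a
  norm_num at a

lemma p0n {B : ℝ} (hB : 0 < B) : fderiv ℝ u p0 (gradient (F B) p0) ≠ 0 := by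
  have h1 : p0 ≠ y1 := ne_of_away (by rw [p0a]; norm_num)
  have h2 : p0 ≠ y2 := ne_of_away (by rw [p0b]; norm_num)
  have hg : ∀ v, ⟪gradient (F B) p0, v⟫ = fderiv ℝ (F B) p0 v := fun v => by
    simp [gradient]
  rw [fdu h1 h2, real_inner_comm, hg, real_inner_comm, hg, fdF, fdF, p0a, p0b]
  intro h
  have a := ps_sq (t := 11 / 4) (by norm_num)
  have b := ps_sq (t := 13 / 4) (by norm_num)
  set c : ℝ := (1 / 16 + (B / 2 + 1 / 16)) - 2 * (B + 1 / 4) ^ 2 with hc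
  have hc0 : c ≠ 0 := by
    have : c < 0 := by rw [hc]; nlinarith
    exact this.ne
  have hc1 : (c : ℂ) ≠ 0 := by exact_mod_cast hc0
  have e : ps (11 / 4) * 11 = ps (13 / 4) * 13 := by
    apply mul_left_cancel₀ hc1
    simp [p0, y1, y2] at h
    rw [hc]
    push_cast
    linear_combination (-4) * h
  have er := congrArg Complex.re e
  have ei := congrArg Complex.im e
  simp at er ei
  have : ((ps (11 / 4)).re ^ 2 + (ps (11 / 4)).im ^ 2) * 121 =
      ((ps (13 / 4)).re ^ 2 + (ps (13 / 4)).im ^ 2) * 169 := by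
    linear_combination ((ps (11 / 4)).re * 11 + (ps (13 / 4)).re * 13) * er +
      ((ps (11 / 4)).im * 11 + (ps (13 / 4)).im * 13) * ei
  rw [a, b] at this
  norm_num at this

theorem main :
    ∃ (V : Set (EuclideanSpace ℝ (Fin 3))) (F : EuclideanSpace ℝ (Fin 3) → ℝ)
      (u f : EuclideanSpace ℝ (Fin 3) → ℂ),
      IsCompact V ∧ IsConnected V ∧ closure (interior V) = V ∧ IsConnected Vᶜ ∧
      ContDiff ℝ ∞ F ∧ V = {x | F x ≤ 0} ∧ frontier V = {x | F x = 0} ∧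
      (∀ x ∈ frontier V, gradient F x ≠ 0) ∧
      (∀ x ∈ closure Vᶜ, ContDiffAt ℝ ∞ u x) ∧
      (∀ x ∈ Vᶜ, Laplacian.laplacian u x + u x = 0) ∧
      ContDiff ℝ ∞ f ∧
      Tendsto (fun x => (‖x‖ : ℂ) * Complex.exp (-(Complex.I * ‖x‖)) * u x - f (‖x‖⁻¹ • x))
        (cocompact (EuclideanSpace ℝ (Fin 3))) (𝓝 0) ∧
      (∃ x ∈ frontier V, u x ≠ 0) ∧
      (∃ x ∈ frontier V, fderiv ℝ u x (gradient F x) ≠ 0) ∧
      IntegrableOn (fun x => ‖u x‖ ^ 2 - ∑ i, ‖fderiv ℝ u x (EuclideanSpace.single i 1)‖ ^ 2) Vᶜ ∧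
      0 < 1 / 2 * ∫ x in Vᶜ, (‖u x‖ ^ 2 - ∑ i, ‖fderiv ℝ u x (EuclideanSpace.single i 1)‖ ^ 2) := by
  obtain ⟨T, hT, hpos⟩ := q_pos
  have hB : 0 < 2 * T ^ 2 := by positivity
  have hfr : p0 ∈ frontier (V (2 * T ^ 2)) := by rw [frontV hB]; exact p0F _
  refine ⟨V (2 * T ^ 2), F (2 * T ^ 2), u, fun z => ff y1 z + ff y2 z, compV hB, connV hB, clintV hB, connC hB,
    cdF _, rfl, frontV hB, fun x hx hg => ?_, fun x hx => ?_, fun x hx => ?_, (cdff y1).add (cdff y2), ?_,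
    ⟨p0, hfr, p0u⟩, ⟨p0, hfr, p0n hB⟩, q_int hT, mul_pos (by norm_num) hpos⟩
  · rw [frontV hB] at hx
    refine reg hB hx ?_
    simpa [gradient] using hg
  · have := away hT (clcomp hx)
    exact cdu (ne_of_away this.1) (ne_of_away this.2)
  · have := away hT (clcomp (subset_closure hx))
    exact lapu (ne_of_away this.1) (ne_of_away this.2)
  · have := (asy_lim ny1).add (asy_lim ny2)
    rw [add_zero] at this
    refine this.congr fun x => ?_
    unfold u
    ring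

end Pool.Agent.H.MP_871f9b_an
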